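import Pool.Agent.Lib.FGF.LStmts

/-!
# Theorem L in the form with one stable set (statements)

As in `FGF.LDefs`, but all hubs lie in one stable set `J`.  Hence two hubs are never adjacent, and
neither an upper bound for `D` at the own hubs nor hypotheses on the scales of the hubs are needed.
Small levels are inner (late stages), large levels are outer (early stages).
-/

set_option autoImplicit false

namespace Pool.Agent.Lib.FGL

open Finset Classical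
open Pool.Agent.Lib.FracGS (nb wnb om TAdj)
open Pool.Agent.Lib.GSR3 (Stab Tree)

/-- A system of `r` unlinked levels whose hubs lie in one stable set. -/
structure LSysJ {V : Type} [Fintype V] (G : SimpleGraph V) (W : Finset V) (μ : V → ℝ) (r : ℕ)
    (J : Finset V) (q : ℕ → V → ℝ) (xi e1 : ℝ) : Prop where
  μ0 : ∀ x, 0 ≤ μ x
  μW : ∀ x, x ∉ W → μ x = 0
  μ1 : ∑ x ∈ W, μ x = 1
  q0 : ∀ i < r, ∀ y, 0 ≤ q i y
  q1 : ∀ i < r, ∑ y, q i y ≤ 1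
  qJ : ∀ i < r, ∀ y, y ∉ J → q i y = 0
  stab : Stab G J
  apos : ∀ i < r, ∀ x ∈ W, 0 < aw G (q i) x
  Dxi : ∀ i < r, ∀ w ∈ W, Dw G W μ (q i) w ≤ xi
  DxiJ : ∀ i j, i < j → j < r → ∀ y, q i y ≠ 0 → Dw G W μ (q j) y ≤ xi
  atm : ∀ i < r, ∀ x ∈ W, μ x ≤ xi * aw G (q i) x
  /-- nodes and inner hubs have small weight as hubs (for instance weight `0`) -/
  qat : ∀ j < r, ∀ x ∈ W, ∀ y, G.Adj x y → (y ∈ W ∨ ∃ i < j, q i y ≠ 0) →
    q j y ≤ xi * aw G (q j) x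
  lam : ∀ i j, i < j → j < r →
    ∑ x ∈ W, ∑ x' ∈ W, mt G W μ (q i) x x' * lk G (q j) x x' ≤ e1

/-- Subsystems along increasing maps; weakening of the constants. -/
def StJSub : Prop :=
  ∀ (V : Type) [Fintype V] (G : SimpleGraph V) (W : Finset V) (μ : V → ℝ) (r : ℕ)
    (J : Finset V) (q : ℕ → V → ℝ) (xi e1 : ℝ),
    LSysJ G W μ r J q xi e1 → LBas G W μ r q ∧
      (∀ (d : ℕ) (c : ℕ → ℕ), (∀ i < d, c i < r) → (∀ i j, i < j → j < d → c i < c j) →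
        LSysJ G W μ d J (fun i => q (c i)) xi e1) ∧
      (∀ xi' e1' : ℝ, xi ≤ xi' → e1 ≤ e1' → LSysJ G W μ r J q xi' e1')

/-- Conflicts between two copies. -/
def StJTwo : Prop :=
  ∀ (M : ℕ) (V : Type) [Fintype V] (G : SimpleGraph V) (W : Finset V) (μ : V → ℝ) (r : ℕ)
    (J : Finset V) (q : ℕ → V → ℝ) (xi e1 : ℝ),
    LSysJ G W μ r J q xi e1 → 0 ≤ xi → ∀ d < r, ∀ eta : ℝ, 0 < eta →
      ∀ e e' : Fin (M + 1), e ≠ e' →
      (∀ u u' : WN M d, prb (cw G W μ q M (d + 1)) (fun x => eta ≤ Dw G W μ (q d) x.1 ∧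
        Top G (q d) d (x.2 e) ∧ (wv d (x.2 e) u = wv d (x.2 e') u' ∨
          G.Adj (wv d (x.2 e) u) (wv d (x.2 e') u'))) ≤ 2 * xi / eta) ∧
      (∀ (u : WN M d) (h' : HN M d), prb (cw G W μ q M (d + 1)) (fun x =>
        eta ≤ Dw G W μ (q d) x.1 ∧ Top G (q d) d (x.2 e) ∧
          (wv d (x.2 e) u = hv d (x.2 e') h' ∨
            G.Adj (wv d (x.2 e) u) (hv d (x.2 e') h'))) ≤ 2 * xi / eta)

/-- Links between the root and another vertex. -/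
def StJOp : Prop :=
  ∀ (M : ℕ) (V : Type) [Fintype V] (G : SimpleGraph V) (W : Finset V) (μ : V → ℝ) (r : ℕ)
    (J : Finset V) (q : ℕ → V → ℝ) (xi e1 : ℝ),
    LSysJ G W μ r J q xi e1 → 0 ≤ e1 → ∀ d < r, ∀ u : WN M d, u ≠ rn M d →
      ∑ x, cw G W μ q M d x * lk G (q d) (root d x) (wv d x u) ≤ Real.sqrt e1

/-- Conflicts between the outer hub and a copy. -/
def StJOne : Prop :=
  ∀ (M : ℕ) (V : Type) [Fintype V] (G : SimpleGraph V) (W : Finset V) (μ : V → ℝ) (r : ℕ)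
    (J : Finset V) (q : ℕ → V → ℝ) (xi e1 : ℝ),
    LSysJ G W μ r J q xi e1 → 0 ≤ xi → 0 ≤ e1 → ∀ d < r, ∀ eta : ℝ, 0 < eta →
      prb (cw G W μ q M (d + 1)) (fun x => Dw G W μ (q d) x.1 < eta) ≤ eta ∧
      ∀ e : Fin (M + 1),
      (∀ u : WN M d, u ≠ rn M d → prb (cw G W μ q M (d + 1)) (fun x =>
        Top G (q d) d (x.2 e) ∧ G.Adj x.1 (wv d (x.2 e) u)) ≤ Real.sqrt e1) ∧
      (∀ u : WN M d, prb (cw G W μ q M (d + 1)) (fun x => x.1 = wv d (x.2 e) u) ≤ xi) ∧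
      (∀ h : HN M d, prb (cw G W μ q M (d + 1)) (fun x => x.1 = hv d (x.2 e) h) ≤ xi)

/-- The probability of a conflict. -/
def StJRec : Prop :=
  ∀ (M d : ℕ), ∃ C : ℝ, 0 ≤ C ∧ ∀ (V : Type) [Fintype V] (G : SimpleGraph V) (W : Finset V)
    (μ : V → ℝ) (J : Finset V) (q : ℕ → V → ℝ) (xi e1 : ℝ),
    LSysJ G W μ d J q xi e1 → 0 ≤ xi → 0 ≤ e1 → ∀ eta : ℝ, 0 < eta →
      prb (cw G W μ q M d) (fun x => OK G q d x ∧ ¬ Clean G d x) ≤
        C * (eta + Real.sqrt e1 + xi + 2 * xi / eta)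

/-- Theorem L with one stable set. -/
def StJThm : Prop :=
  ∀ M h : ℕ, ∃ (r : ℕ) (e1 xi : ℝ), 0 < e1 ∧ 0 < xi ∧
    ∀ (V : Type) [Fintype V] (G : SimpleGraph V) (W : Finset V) (μ : V → ℝ) (J : Finset V)
      (q : ℕ → V → ℝ), LSysJ G W μ r J q xi e1 → ∃ φ : List (Fin M) → V, Tree G h M φ

end Pool.Agent.Lib.FGL
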