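import Pool.Agent.Lib.FGJ.LDefs
import Pool.Agent.Lib.FGF.LOp
import Pool.Agent.Lib.FGF.LSub
import Pool.Agent.Lib.FGF.LOne

/-!
# Theorem L with one stable set: subsystems, links, conflicts between the outer hub and a copy
-/

set_option autoImplicit false

namespace Pool.Agent.Lib.FGL

open Finset Classical
open Pool.Agent.Lib.FracGS (nb wnb om TAdj)
open Pool.Agent.Lib.GSR3 (Stab Tree)

open LSubAux in
theorem stJSub : StJSub := by
  intro V _ G W μ r J q xi e1 h
  refine ⟨⟨h.μ0, h.μW, h.μ1, h.q0, h.apos⟩, ?_, ?_⟩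
  · intro d c hc hinc
    exact
      { μ0 := h.μ0
        μW := h.μW
        μ1 := h.μ1
        q0 := fun i hi => h.q0 _ (hc i hi)
        q1 := fun i hi => h.q1 _ (hc i hi)
        qJ := fun i hi => h.qJ _ (hc i hi)
        stab := h.stab
        apos := fun i hi => h.apos _ (hc i hi)
        Dxi := fun i hi => h.Dxi _ (hc i hi)
        DxiJ := fun i j hij hj => h.DxiJ _ _ (hinc i j hij hj) (hc j hj)
        atm := fun i hi => h.atm _ (hc i hi)
        qat := by
          intro j hj x hx y hxy hy
          refine h.qat _ (hc j hj) x hx y hxy ?_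
          rcases hy with hy | ⟨i, hi, hy⟩
          · exact Or.inl hy
          · exact Or.inr ⟨c i, hinc i j hi hj, hy⟩
        lam := fun i j hij hj => h.lam _ _ (hinc i j hij hj) (hc j hj) }
  · intro xi' e1' hxi he1
    exact
      { μ0 := h.μ0
        μW := h.μW
        μ1 := h.μ1
        q0 := h.q0
        q1 := h.q1
        qJ := h.qJ
        stab := h.stab
        apos := h.apos
        Dxi := fun i hi w hw => (h.Dxi i hi w hw).trans hxi
        DxiJ := fun i j hij hj w hw => (h.DxiJ i j hij hj w hw).trans hxi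
        atm := fun i hi x hx => (h.atm i hi x hx).trans
          (mul_le_mul_of_nonneg_right hxi (h.apos i hi x hx).le)
        qat := fun j hj x hx y hxy hy => (h.qat j hj x hx y hxy hy).trans
          (mul_le_mul_of_nonneg_right hxi (h.apos j hj x hx).le)
        lam := fun i j hij hj => (h.lam i j hij hj).trans he1 }

open LOpAux in
theorem stJOp (h0 : StJSub) (h1 : StLKer) (h2 : StLMarg) : StJOp := by
  intro M V _ G W μ r J q xi e1 hS he1 d hd u hu
  obtain ⟨hB, -, -⟩ := h0 V G W μ r J q xi e1 hS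
  obtain ⟨i, hi, hkey⟩ := key h1 h2 M hB d hd.le u hu
  have hq := hB.q0 d hd
  set ρ := q d with hρ
  have hZ : ∑ x, cw G W μ q M d x * lk G ρ (root d x) (wv d x u) =
      ∑ y, ρ y * ∑ x, cw G W μ q M d x * (gy G ρ y (root d x) * gy G ρ y (wv d x u)) := by
    rw [sum_congr rfl fun x _ => by rw [lk_eq hq, mul_sum], sum_comm]
    refine sum_congr rfl fun y _ => ?_
    rw [mul_sum]
    exact sum_congr rfl fun x _ => by ring
  rw [hZ]
  refine (le_abs_self _).trans (Real.abs_le_sqrt ?_)
  have hi' : i < r := hi.trans hd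
  set A : V → ℝ := fun y =>
    ∑ x ∈ W, ∑ x' ∈ W, mt G W μ (q i) x x' * gy G ρ y x * gy G ρ y x' with hA
  set B : V → ℝ := fun y => ∑ v ∈ W, μ v * gy G ρ y v ^ 2 with hBdef
  have hA0 : ∀ y, 0 ≤ A y := fun y => sum_nonneg fun x _ => sum_nonneg fun x' _ =>
    mul_nonneg (mul_nonneg (mt_nonneg hB hi' x x') (gy_nonneg ρ y x)) (gy_nonneg ρ y x')
  have hB0 : ∀ y, 0 ≤ B y := fun y => sum_nonneg fun v _ =>
    mul_nonneg (hB.μ0 v) (sq_nonneg _)
  have hCS := sum_sq_le_sum_mul_sum_of_sq_le_mul univ
    (r := fun y => ρ y * ∑ x, cw G W μ q M d x * (gy G ρ y (root d x) * gy G ρ y (wv d x u)))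
    (f := fun y => ρ y * A y) (g := fun y => ρ y * B y)
    (fun y _ => mul_nonneg (hq y) (hA0 y)) (fun y _ => mul_nonneg (hq y) (hB0 y))
    (fun y _ => by
      rw [mul_pow]
      calc ρ y ^ 2 * (∑ x, cw G W μ q M d x *
            (gy G ρ y (root d x) * gy G ρ y (wv d x u))) ^ 2 ≤ ρ y ^ 2 * (A y * B y) :=
            mul_le_mul_of_nonneg_left (hkey (gy G ρ y) (gy G ρ y)) (sq_nonneg _)
        _ = ρ y * A y * (ρ y * B y) := by ring)
  refine hCS.trans ?_
  have hSA : ∑ y, ρ y * A y ≤ e1 := by
    have h3 : ∑ y, ρ y * A y = ∑ x ∈ W, ∑ x' ∈ W, mt G W μ (q i) x x' * lk G ρ x x' := by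
      simp only [hA, mul_sum]
      rw [sum_comm]
      refine sum_congr rfl fun x _ => ?_
      rw [sum_comm]
      refine sum_congr rfl fun x' _ => ?_
      rw [lk_eq hq, mul_sum]
      exact sum_congr rfl fun y _ => by ring
    rw [h3]
    exact hS.lam i d hi hd
  have hSB : ∑ y, ρ y * B y = 1 := by
    have h3 : ∑ y, ρ y * B y = ∑ v ∈ W, μ v * ∑ y, ρ y * gy G ρ y v ^ 2 := by
      simp only [hBdef, mul_sum]
      rw [sum_comm]
      exact sum_congr rfl fun v _ => sum_congr rfl fun y _ => by ring
    rw [h3, ← hB.μ1]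
    refine sum_congr rfl fun v hv => ?_
    rw [sum_gy (hB.apos d hd v hv), mul_one]
  rw [hSB, mul_one]
  exact hSA

open LOneAux in
theorem stJOne (h0 : StJSub) (h1 : StLKer) (h2 : StLMarg) (h4 : StJOp) : StJOne := by
  intro M V _ G W μ r J q xi e1 hS hxi he1 d hd eta heta
  have hB : LBas G W μ r q := (h0 V G W μ r J q xi e1 hS).1
  obtain ⟨k1, k2⟩ := h1 M V G W μ r q hB
  obtain ⟨c0, c1, c2⟩ := k1 d hd.le
  obtain ⟨w0, D0, w1, f1, f2, f3, _⟩ := k2 d hd
  obtain ⟨m1, m2, m3, m4, m5, m6, m7⟩ := h2 M V G W μ r q hB d hd.le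
  -- the probability that the outer hub is a given vertex of the copy
  have heq : ∀ (e : Fin (M + 1)) (b : Conf M V d → V),
      (∀ f, cw G W μ q M d f ≠ 0 → b f ∈ W ∨ ∃ i < d, q i (b f) ≠ 0) →
      prb (cw G W μ q M (d + 1)) (fun x => x.1 = b (x.2 e)) ≤ xi := by
    intro e b hb
    rw [prb_eq]
    refine (f2 e (fun g f => ind (g = b f))).le.trans ?_
    have hle : ∀ f ∈ (univ : Finset (Conf M V d)), cw G W μ q M d f / aw G (q d) (root d f) *
        (∑ g, if G.Adj (root d f) g then q d g * ind (g = b f) else 0) ≤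
          xi * cw G W μ q M d f := by
      intro f _
      by_cases hc : cw G W μ q M d f = 0
      · rw [hc, zero_div, zero_mul, mul_zero]
      obtain ⟨hW, _, _⟩ := m7 f hc
      have hr : root d f ∈ W := by
        rw [m6 f]
        exact hW _
      have ha : 0 < aw G (q d) (root d f) := hS.apos d hd _ hr
      have h5 : (∑ g, if G.Adj (root d f) g then q d g * ind (g = b f) else 0) ≤
          xi * aw G (q d) (root d f) := by
        by_cases hadj : G.Adj (root d f) (b f)
        · rw [Finset.sum_eq_single (b f)]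
          · rw [if_pos hadj, ind_pos rfl, mul_one]
            exact hS.qat d hd _ hr _ hadj (hb f hc)
          · intro g _ hg
            rw [ind_neg hg, mul_zero, ite_self]
          · intro h
            exact absurd (mem_univ _) h
        · refine le_of_eq_of_le ?_ (mul_nonneg hxi ha.le)
          refine sum_eq_zero fun g _ => ?_
          by_cases hg : g = b f
          · rw [if_neg (by rw [hg]; exact hadj)]
          · rw [ind_neg hg, mul_zero, ite_self]
      calc cw G W μ q M d f / aw G (q d) (root d f) *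
            (∑ g, if G.Adj (root d f) g then q d g * ind (g = b f) else 0)
          ≤ cw G W μ q M d f / aw G (q d) (root d f) * (xi * aw G (q d) (root d f)) :=
            mul_le_mul_of_nonneg_left h5 (div_nonneg (c0 f) ha.le)
        _ = xi * cw G W μ q M d f := by
            field_simp
    refine (sum_le_sum hle).trans ?_
    rw [← mul_sum, c1, mul_one]
  refine ⟨?_, fun e => ⟨fun u hu => ?_, fun u => ?_, fun h => ?_⟩⟩
  · -- (1)
    rw [prb_eq]
    refine (f1 0 (fun g _ => ind (Dw G W μ (q d) g < eta))).le.trans ?_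
    have hle : ∀ g ∈ (univ : Finset V), q d g * Dw G W μ (q d) g *
        ∑ f, kw G W μ (q d) (root d) (cw G W μ q M d) g f *
          ind (Dw G W μ (q d) g < eta) ≤ eta * q d g := by
      intro g _
      rw [← sum_mul]
      by_cases hg : Dw G W μ (q d) g < eta
      · rw [ind_pos hg, mul_one]
        rcases (D0 g).eq_or_lt with hD | hD
        · rw [← hD, mul_zero, zero_mul]
          exact mul_nonneg heta.le (hS.q0 d hd g)
        · rw [w1 g hD, mul_one, mul_comm]
          exact mul_le_mul_of_nonneg_right hg.le (hS.q0 d hd g)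
      · rw [ind_neg hg, mul_zero, mul_zero]
        exact mul_nonneg heta.le (hS.q0 d hd g)
    refine (sum_le_sum hle).trans ?_
    rw [← mul_sum]
    calc eta * ∑ g, q d g ≤ eta * 1 := mul_le_mul_of_nonneg_left (hS.q1 d hd) heta.le
      _ = eta := mul_one _
  · -- (2)
    rw [prb_eq]
    refine (f2 e (fun g f => ind (Top G (q d) d f ∧ G.Adj g (wv d f u)))).le.trans ?_
    refine le_trans ?_ (h4 M V G W μ r J q xi e1 hS he1 d hd u hu)
    refine sum_le_sum fun f _ => ?_
    have hlk : 0 ≤ lk G (q d) (root d f) (wv d f u) := lk_nonneg G (hS.q0 d hd) _ _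
    by_cases hT : Top G (q d) d f
    · have e : (∑ g, if G.Adj (root d f) g then q d g *
          ind (Top G (q d) d f ∧ G.Adj g (wv d f u)) else 0) =
          om G univ (q d) (root d f) (wv d f u) := by
        rw [← sum_om]
        refine sum_congr rfl fun g _ => ?_
        simp only [hT, true_and]
      rw [e]
      by_cases hc : cw G W μ q M d f = 0
      · rw [hc, zero_div, zero_mul, zero_mul]
      · obtain ⟨hW, _, _⟩ := m7 f hc
        have ha : 0 < aw G (q d) (root d f) := by
          rw [m6 f]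
          exact hS.apos d hd _ (hW _)
        have hb : 0 < aw G (q d) (wv d f u) := hS.apos d hd _ (hW u)
        have hs : 0 < Real.sqrt (aw G (q d) (root d f) * aw G (q d) (wv d f u)) :=
          Real.sqrt_pos.2 (mul_pos ha hb)
        have hs2 : Real.sqrt (aw G (q d) (root d f) * aw G (q d) (wv d f u)) ≤
            aw G (q d) (root d f) := by
          rw [Real.sqrt_le_left ha.le, sq]
          exact mul_le_mul_of_nonneg_left (hT u) ha.le
        rw [div_mul_eq_mul_div, mul_div_assoc]
        refine mul_le_mul_of_nonneg_left ?_ (c0 f)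
        exact div_le_div_of_nonneg_left (om_nonneg G univ (hS.q0 d hd) _ _) hs hs2
    · have e : (∑ g, if G.Adj (root d f) g then q d g *
          ind (Top G (q d) d f ∧ G.Adj g (wv d f u)) else 0) = 0 := by
        refine sum_eq_zero fun g _ => ?_
        rw [ind_neg fun h : Top G (q d) d f ∧ G.Adj g (wv d f u) => hT h.1, mul_zero, ite_self]
      rw [e, mul_zero]
      exact mul_nonneg (c0 f) hlk
  · -- (3)
    exact heq e (fun f => wv d f u) fun f hf => Or.inl ((m7 f hf).1 u)
  · -- (4)
    exact heq e (fun f => hv d f h) fun f hf => Or.inr ⟨lev d h, m4 h, (m7 f hf).2.1 h⟩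

end Pool.Agent.Lib.FGL
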