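import Pool.Agent.Lib.FGJ.LDefs
import Pool.Agent.Lib.FGF.LRec

/-!
# Theorem L with one stable set: the probability of a conflict
-/

set_option autoImplicit false

namespace Pool.Agent.Lib.FGL

open Finset Classical
open Pool.Agent.Lib.FracGS (nb wnb om TAdj)
open Pool.Agent.Lib.GSR3 (Stab Tree)

open LRecAux in
theorem stJRec (h0 : StJSub) (h1 : StLKer) (h2 : StLMarg) (h5 : StJTwo) (h6 : StJOne) :
    StJRec := by
  intro M d
  induction d with
  | zero =>
    refine ⟨0, le_rfl, ?_⟩
    intro V _ G W μ J q xi e1 _ _ _ eta _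
    rw [zero_mul]
    apply le_of_eq
    apply prb_false
    rintro x ⟨-, hx⟩
    exact hx trivial
  | succ d ih =>
    obtain ⟨C, hC, ihC⟩ := ih
    set nM : ℝ := (Fintype.card (Fin (M + 1)) : ℝ) with hnM
    set nW : ℝ := (Fintype.card (WN M d) : ℝ) with hnW
    set nH : ℝ := (Fintype.card (HN M d) : ℝ) with hnH
    have hnM0 : 0 ≤ nM := Nat.cast_nonneg _
    have hnW0 : 0 ≤ nW := Nat.cast_nonneg _
    have hnH0 : 0 ≤ nH := Nat.cast_nonneg _
    refine ⟨1 + nM * C + nM * nW + nM * nW + nM * nH + nM * (nM * (nW * nW)) +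
      nM * (nM * (nW * nH)), by positivity, ?_⟩
    intro V _ G W μ J q xi e1 hS hxi he1 eta heta
    obtain ⟨hB, hsub, -⟩ := h0 V G W μ (d + 1) J q xi e1 hS
    have hSd : LSysJ G W μ d J q xi e1 :=
      hsub d id (fun i hi => Nat.lt_succ_of_lt hi) (fun i j hij _ => hij)
    have ihd := ihC V G W μ J q xi e1 hSd hxi he1 eta heta
    -- the bound
    set B : ℝ := eta + Real.sqrt e1 + xi + 2 * xi / eta with hBdef
    have hsq : 0 ≤ Real.sqrt e1 := Real.sqrt_nonneg _
    have hxe : 0 ≤ 2 * xi / eta := by positivity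
    have hB0 : 0 ≤ B := by linarith
    have b1 : eta ≤ B := by linarith
    have b3 : Real.sqrt e1 ≤ B := by linarith
    have b4 : xi ≤ B := by linarith
    have b6 : 2 * xi / eta ≤ B := by linarith
    -- the facts on the law
    obtain ⟨hK1, hK2⟩ := h1 M V G W μ (d + 1) q hB
    have hw : ∀ x, 0 ≤ cw G W μ q M (d + 1) x := (hK1 (d + 1) le_rfl).1
    obtain ⟨-, -, -, -, -, hcopy, -⟩ := hK2 d (Nat.lt_succ_self d)
    obtain ⟨-, -, -, hlevd, hhrd, hrootd, hsuppd⟩ := h2 M V G W μ (d + 1) q hB d (Nat.le_succ d)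
    obtain ⟨hO1, hO2⟩ := h6 M V G W μ (d + 1) J q xi e1 hS hxi he1 d
      (Nat.lt_succ_self d) eta heta
    have hT := h5 M V G W μ (d + 1) J q xi e1 hS hxi d
      (Nat.lt_succ_self d) eta heta
    -- the events
    set w := cw G W μ q M (d + 1) with hwdef
    let A0 : Conf M V (d + 1) → Prop := fun x => Dw G W μ (q d) x.1 < eta
    let A1 : Fin (M + 1) → Conf M V (d + 1) → Prop := fun e x =>
      OK G q d (x.2 e) ∧ ¬ Clean G d (x.2 e)
    let A2 : Fin (M + 1) → WN M d → Conf M V (d + 1) → Prop := fun e u x =>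
      x.1 = wv d (x.2 e) u
    let A3 : Fin (M + 1) → WN M d → Conf M V (d + 1) → Prop := fun e u x =>
      u ≠ rn M d ∧ Top G (q d) d (x.2 e) ∧ G.Adj x.1 (wv d (x.2 e) u)
    let A4 : Fin (M + 1) → HN M d → Conf M V (d + 1) → Prop := fun e h x =>
      x.1 = hv d (x.2 e) h
    let A5 : Fin (M + 1) → Fin (M + 1) → WN M d → WN M d → Conf M V (d + 1) → Prop :=
      fun e e' u u' x => e ≠ e' ∧ eta ≤ Dw G W μ (q d) x.1 ∧
        Top G (q d) d (x.2 e) ∧ (wv d (x.2 e) u = wv d (x.2 e') u' ∨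
          G.Adj (wv d (x.2 e) u) (wv d (x.2 e') u'))
    let A6 : Fin (M + 1) → Fin (M + 1) → WN M d → HN M d → Conf M V (d + 1) → Prop :=
      fun e e' u h' x => e ≠ e' ∧ eta ≤ Dw G W μ (q d) x.1 ∧ Top G (q d) d (x.2 e) ∧
          (wv d (x.2 e) u = hv d (x.2 e') h' ∨ G.Adj (wv d (x.2 e) u) (hv d (x.2 e') h'))
    -- their probabilities
    have p0 : prb w A0 ≤ B := hO1.trans b1
    have p1 : ∀ e, prb w (A1 e) ≤ C * B := by
      intro e
      refine le_trans (le_of_eq ?_) ihd
      have h3 := hcopy e (fun f => if OK G q d f ∧ ¬ Clean G d f then 1 else 0)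
      have g1 : prb w (A1 e) = ∑ x, w x *
          (if OK G q d (x.2 e) ∧ ¬ Clean G d (x.2 e) then (1 : ℝ) else 0) := by
        unfold prb
        apply Finset.sum_congr rfl
        intro x _
        exact ite_aux _ _ _ _
      have g2 : prb (cw G W μ q M d) (fun x => OK G q d x ∧ ¬ Clean G d x) =
          ∑ f, cw G W μ q M d f * (if OK G q d f ∧ ¬ Clean G d f then (1 : ℝ) else 0) := by
        unfold prb
        apply Finset.sum_congr rfl
        intro x _
        exact ite_aux _ _ _ _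
      rw [g1, g2]
      exact h3
    have p2 : ∀ e u, prb w (A2 e u) ≤ B := fun e u => ((hO2 e).2.1 u).trans b4
    have p3 : ∀ e u, prb w (A3 e u) ≤ B := by
      intro e u
      by_cases hu : u = rn M d
      · rw [prb_false]
        · exact hB0
        · rintro x ⟨hx, -⟩
          exact hx hu
      · refine le_trans (prb_mono hw ?_) (((hO2 e).1 u hu).trans b3)
        rintro x - ⟨-, hx⟩
        exact hx
    have p4 : ∀ e h, prb w (A4 e h) ≤ B := fun e h => ((hO2 e).2.2 h).trans b4
    have p5 : ∀ e e' u u', prb w (A5 e e' u u') ≤ B := by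
      intro e e' u u'
      by_cases hee : e = e'
      · rw [prb_false]
        · exact hB0
        · rintro x ⟨hx, -⟩
          exact hx hee
      · refine le_trans (prb_mono hw ?_) (((hT e e' hee).1 u u').trans b6)
        rintro x - ⟨-, hx⟩
        exact hx
    have p6 : ∀ e e' u h', prb w (A6 e e' u h') ≤ B := by
      intro e e' u h'
      by_cases hee : e = e'
      · rw [prb_false]
        · exact hB0
        · rintro x ⟨hx, -⟩
          exact hx hee
      · refine le_trans (prb_mono hw ?_) (((hT e e' hee).2 u h').trans b6)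
        rintro x - ⟨-, hx⟩
        exact hx
    -- the inclusion
    have hincl : ∀ x, w x ≠ 0 → (OK G q (d + 1) x ∧ ¬ Clean G (d + 1) x) →
        A0 x ∨ (∃ e, A1 e x) ∨ (∃ e u, A2 e u x) ∨ (∃ e u, A3 e u x) ∨ (∃ e h, A4 e h x) ∨
        (∃ e e' u u', A5 e e' u u' x) ∨ (∃ e e' u h', A6 e e' u h' x) := by
      rintro x hx ⟨hOK, hNC⟩
      by_contra hno
      simp only [not_or, not_exists] at hno
      obtain ⟨n0, n1, n2, n3, n4, n5, n6⟩ := hno
      apply hNC
      have hD : eta ≤ Dw G W μ (q d) x.1 := not_lt.1 n0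
      have hxe : w x = q d x.1 * Dw G W μ (q d) x.1 *
          ∏ e, kw G W μ (q d) (root d) (cw G W μ q M d) x.1 (x.2 e) := rfl
      rw [hxe] at hx
      have hq0 : q d x.1 ≠ 0 := left_ne_zero_of_mul (left_ne_zero_of_mul hx)
      have hkw : ∀ e, kw G W μ (q d) (root d) (cw G W μ q M d) x.1 (x.2 e) ≠ 0 := fun e =>
        Finset.prod_ne_zero_iff.1 (right_ne_zero_of_mul hx) e (Finset.mem_univ e)
      have hcw : ∀ e, cw G W μ q M d (x.2 e) ≠ 0 := by
        intro e h3
        apply hkw e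
        unfold kw
        rw [h3, zero_mul, zero_div]
      have hadj : ∀ e, G.Adj x.1 (root d (x.2 e)) := by
        intro e
        by_contra h3
        apply hkw e
        unfold kw
        rw [if_neg h3, mul_zero, zero_div]
      have hxJ : x.1 ∈ J := by
        by_contra h3
        exact hq0 (hS.qJ d (Nat.lt_succ_self d) x.1 h3)
      have hhJ : ∀ e h, hv d (x.2 e) h ∈ J := by
        intro e h
        by_contra h3
        exact (hsuppd (x.2 e) (hcw e)).2.1 h
          (hS.qJ (lev d h) ((hlevd h).trans (Nat.lt_succ_self d)) _ h3)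
      have hhadj : ∀ e h, G.Adj (hr d (x.2 e) h) (hv d (x.2 e) h) := fun e =>
        (hsuppd (x.2 e) (hcw e)).2.2
      have hTop : ∀ e, Top G (q d) d (x.2 e) := fun e => (hOK e).2
      have hwh : ∀ e e', e ≠ e' → ∀ u h, ¬ G.Adj (wv d (x.2 e) u) (hv d (x.2 e') h) := by
        intro e e' hee u h h3
        exact n6 e e' u h ⟨hee, hD, hTop e, Or.inr h3⟩
      refine ⟨?_, hadj, ?_, ?_, ?_, ?_, ?_, ?_, ?_⟩
      · intro e
        by_contra h3
        exact n1 e ⟨(hOK e).1, h3⟩
      · intro e u hu h3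
        exact n3 e u ⟨hu, hTop e, h3⟩
      · intro e u h3
        exact n2 e u h3
      · intro e h h3
        exact hS.stab _ hxJ _ (hhJ e h) h3
      · intro e h h3
        exact n4 e h h3
      · intro e e' hee u u'
        refine ⟨fun h3 => ?_, fun h3 => ?_⟩
        · exact n5 e e' u u' ⟨hee, hD, hTop e, Or.inl h3⟩
        · exact n5 e e' u u' ⟨hee, hD, hTop e, Or.inr h3⟩
      · intro e e' hee u h
        refine ⟨fun h3 => ?_, hwh e e' hee u h⟩
        exact n6 e e' u h ⟨hee, hD, hTop e, Or.inl h3⟩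
      · intro e e' hee h h'
        refine ⟨fun h3 => ?_, fun h3 => ?_⟩
        · obtain ⟨u, hu⟩ := hhrd h
          have h4 := hhadj e h
          rw [hu (x.2 e), h3] at h4
          exact hwh e e' hee u h' h4
        · exact hS.stab _ (hhJ e h) _ (hhJ e' h') h3
    -- the union bound
    refine (prb_mono hw hincl).trans ?_
    have u1 : prb w (fun x => ∃ e, A1 e x) ≤ nM * (C * B) := prb_ex hw A1 p1
    have u2 : prb w (fun x => ∃ e u, A2 e u x) ≤ nM * (nW * B) :=
      prb_ex hw (fun e x => ∃ u, A2 e u x) (fun e => prb_ex hw (A2 e) (p2 e))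
    have u3 : prb w (fun x => ∃ e u, A3 e u x) ≤ nM * (nW * B) :=
      prb_ex hw (fun e x => ∃ u, A3 e u x) (fun e => prb_ex hw (A3 e) (p3 e))
    have u4 : prb w (fun x => ∃ e h, A4 e h x) ≤ nM * (nH * B) :=
      prb_ex hw (fun e x => ∃ h, A4 e h x) (fun e => prb_ex hw (A4 e) (p4 e))
    have u5 : prb w (fun x => ∃ e e' u u', A5 e e' u u' x) ≤ nM * (nM * (nW * (nW * B))) :=
      prb_ex hw (fun e x => ∃ e' u u', A5 e e' u u' x) (fun e =>
        prb_ex hw (fun e' x => ∃ u u', A5 e e' u u' x) (fun e' =>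
          prb_ex hw (fun u x => ∃ u', A5 e e' u u' x) (fun u =>
            prb_ex hw (A5 e e' u) (p5 e e' u))))
    have u6 : prb w (fun x => ∃ e e' u h', A6 e e' u h' x) ≤ nM * (nM * (nW * (nH * B))) :=
      prb_ex hw (fun e x => ∃ e' u h', A6 e e' u h' x) (fun e =>
        prb_ex hw (fun e' x => ∃ u h', A6 e e' u h' x) (fun e' =>
          prb_ex hw (fun u x => ∃ h', A6 e e' u h' x) (fun u =>
            prb_ex hw (A6 e e' u) (p6 e e' u))))
    refine (prb_or hw _ _).trans ?_
    refine (add_le_add p0 ((prb_or hw _ _).trans (add_le_add u1 ((prb_or hw _ _).trans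
      (add_le_add u2 ((prb_or hw _ _).trans (add_le_add u3 ((prb_or hw _ _).trans
      (add_le_add u4 ((prb_or hw _ _).trans (add_le_add u5 u6))))))))))).trans (le_of_eq ?_)
    ring

end Pool.Agent.Lib.FGL
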