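import Pool.Agent.Lib.FGJ.LDefs
import Pool.Agent.Lib.FGF.LTwo
import Pool.Agent.Lib.FGF.LDen

/-!
# Theorem L with one stable set: conflicts between two copies
-/

set_option autoImplicit false

namespace Pool.Agent.Lib.FGL

open Finset Classical
open Pool.Agent.Lib.FracGS (nb wnb om TAdj)
open Pool.Agent.Lib.GSR3 (Stab Tree)

open LTwoAux in
theorem stJTwo (h0 : StJSub) (h1 : StLKer) (h2 : StLMarg) : StJTwo := by
  intro M V _ G W μ r J q xi e1 hS hxi d hd eta heta e e' hne
  have hB : LBas G W μ r q := (h0 V G W μ r J q xi e1 hS).1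
  have hcw : ∀ x, 0 ≤ cw G W μ q M d x := ((h1 M V G W μ r q hB).1 d hd.le).1
  obtain ⟨m1, -, mh, ml, -, -, ms⟩ := h2 M V G W μ r q hB d hd.le
  have hsupp := ms
  have hq0 := hB.q0 d hd
  -- the density of a vertex of the copy
  have hden : ∀ g : V, eta ≤ Dw G W μ (q d) g → ∀ F : V → ℝ, (∀ v, 0 ≤ F v) → ∀ u : WN M d,
      (∑ f, if Top G (q d) d f then
          kw G W μ (q d) (root d) (cw G W μ q M d) g f * F (wv d f u) else 0) ≤
        (∑ z ∈ W, μ z / aw G (q d) z * F z) / eta := by
    intro g hg F hF u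
    have key : ∀ f : Conf M V d, (if Top G (q d) d f then
          kw G W μ (q d) (root d) (cw G W μ q M d) g f * F (wv d f u) else 0) ≤
        cw G W μ q M d f * (F (wv d f u) / aw G (q d) (wv d f u)) / eta := by
      intro f
      refine LDenAux.kw_le G W μ (q d) (root d) (cw G W μ q M d) g f (wv d f u) eta F _ (hcw f)
        hq0 hF heta hg ?_
      intro hT hne
      exact ⟨hB.apos d hd _ ((hsupp f hne).1 u), hT u⟩
    refine (Finset.sum_le_sum fun f _ => key f).trans (le_of_eq ?_)
    rw [← Finset.sum_div]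
    have := m1 u (fun v => F v / aw G (q d) v)
    rw [this]
    congr 1
    refine Finset.sum_congr rfl fun z _ => ?_
    ring
  -- the law of a vertex near a given vertex
  have hnear : ∀ y' : V, (y' ∈ W → μ y' / aw G (q d) y' ≤ xi) → Dw G W μ (q d) y' ≤ xi →
      ∑ z ∈ W, μ z / aw G (q d) z * ind (z = y' ∨ G.Adj z y') ≤ 2 * xi := by
    intro y' hy1 hy2
    have h6 : ∑ z ∈ W, μ z / aw G (q d) z * ind (z = y' ∨ G.Adj z y') ≤
        ∑ z ∈ W, ((if z = y' then μ z / aw G (q d) z else 0) +
          (if G.Adj y' z then μ z / aw G (q d) z else 0)) := by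
      refine Finset.sum_le_sum fun z hz => ?_
      have h7 : 0 ≤ μ z / aw G (q d) z := div_nonneg (hS.μ0 z) (hS.apos d hd z hz).le
      by_cases ha : z = y'
      · have hb : ¬ G.Adj y' z := by
          rw [ha]
          exact G.irrefl
        rw [ind_pos (Or.inl ha), if_pos ha, if_neg hb, mul_one, add_zero]
      · by_cases hb : G.Adj y' z
        · rw [ind_pos (Or.inr hb.symm), if_neg ha, if_pos hb, mul_one, zero_add]
        · rw [ind_neg, if_neg ha, if_neg hb, mul_zero, add_zero]
          rintro (h | h)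
          · exact ha h
          · exact hb h.symm
    refine h6.trans ?_
    rw [Finset.sum_add_distrib, ← Dw_eq, Finset.sum_ite_eq']
    by_cases hy : y' ∈ W
    · rw [if_pos hy]
      have := hy1 hy
      linarith
    · rw [if_neg hy]
      linarith
  -- the common estimate
  have hmain : ∀ (u : WN M d) (b : Conf M V d → V),
      (∀ f, cw G W μ q M d f ≠ 0 → Dw G W μ (q d) (b f) ≤ xi) →
      prb (cw G W μ q M (d + 1)) (fun x => eta ≤ Dw G W μ (q d) x.1 ∧
        Top G (q d) d (x.2 e) ∧ (wv d (x.2 e) u = b (x.2 e') ∨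
          G.Adj (wv d (x.2 e) u) (b (x.2 e')))) ≤ 2 * xi / eta := by
    intro u b hb
    rw [prb_eq]
    refine bound' h1 hB hd e e' hne eta
      (fun g f f' => ind (eta ≤ Dw G W μ (q d) g ∧ Top G (q d) d f ∧ (wv d f u = b f' ∨
        G.Adj (wv d f u) (b f')))) (2 * xi / eta) (by positivity)
      (fun g f f' hg => ind_neg fun h => hg h.1) ?_
    intro g hg f' hf'
    have hz' := hb f' hf'
    generalize b f' = z' at hz'
    have h4 := hden g hg (fun z => ind (z = z' ∨ G.Adj z z')) (fun v => ind_nonneg _) u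
    have h5 : ∑ f, kw G W μ (q d) (root d) (cw G W μ q M d) g f *
        ind (eta ≤ Dw G W μ (q d) g ∧ Top G (q d) d f ∧ (wv d f u = z' ∨ G.Adj (wv d f u) z')) =
        ∑ f, if Top G (q d) d f then kw G W μ (q d) (root d) (cw G W μ q M d) g f *
          ind (wv d f u = z' ∨ G.Adj (wv d f u) z') else 0 := by
      refine Finset.sum_congr rfl fun f _ => ?_
      by_cases ht : Top G (q d) d f
      · rw [ind_and hg, ind_and ht, if_pos ht]
      · rw [if_neg ht, ind_neg fun h => ht h.2.1, mul_zero]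
    rw [h5]
    refine h4.trans (div_le_div_of_nonneg_right (hnear z' ?_ hz') heta.le)
    intro hzW
    rw [div_le_iff₀ (hS.apos d hd z' hzW)]
    exact hS.atm d hd z' hzW
  refine ⟨fun u u' => ?_, fun u h' => ?_⟩
  · exact hmain u (fun f' => wv d f' u') fun f' hf' => hS.Dxi d hd _ ((hsupp f' hf').1 u')
  · exact hmain u (fun f' => hv d f' h') fun f' hf' =>
      hS.DxiJ (lev d h') d (ml h') hd _ ((hsupp f' hf').2.1 h')

end Pool.Agent.Lib.FGL
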