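import Pool.Agent.Lib.FGJ.LOne
import Pool.Agent.Lib.FGJ.LTwo
import Pool.Agent.Lib.FGJ.LRec
import Pool.Agent.Lib.FGF.LKer
import Pool.Agent.Lib.FGF.LMarg
import Pool.Agent.Lib.FGF.LOK
import Pool.Agent.Lib.FGF.LEmb
import Pool.Agent.Lib.FGF.LThm

/-!
# Theorem L with one stable set
-/

set_option autoImplicit false

namespace Pool.Agent.Lib.FGL

open Finset Classical
open Pool.Agent.Lib.FracGS (nb wnb om TAdj)
open Pool.Agent.Lib.GSR3 (Stab Tree)

open LThmAux in
theorem stJThm_of (h0 : StJSub) (h7 : StJRec) (h8 : StLOK) (h9 : StLEmb) : StJThm := by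
  intro M h
  obtain ⟨r, κ, hκ, hOK⟩ := h8 M (M * h) 0
  obtain ⟨C, hC, hRec⟩ := h7 M (M * h)
  set κ' : ℝ := min κ 1 with hκ'
  have hk1 : κ' ≤ κ := min_le_left _ _
  have hk2 : κ' ≤ 1 := min_le_right _ _
  have hk0 : 0 < κ' := lt_min hκ one_pos
  set eta : ℝ := κ' / (8 * (C + 1)) with heta
  have hC1 : 0 < 8 * (C + 1) := by linarith
  have he0 : 0 < eta := div_pos hk0 hC1
  have he1 : eta ≤ 1 := by
    rw [heta, div_le_one hC1]
    linarith
  have heq : eta * (8 * (C + 1)) = κ' := div_mul_cancel₀ _ hC1.ne'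
  refine ⟨r, eta ^ 2, eta ^ 2, by positivity, by positivity, ?_⟩
  intro V _ G W μ J q hS
  obtain ⟨hB, hsub, -⟩ := h0 V G W μ r J q _ _ hS
  obtain ⟨c, R, hc1, hc2, -, hR, hκp⟩ := hOK V G W μ q hB
  have hR0 : R = ∅ := Finset.card_eq_zero.1 hR
  have hS' := hsub (M * h) c hc1 hc2
  have hle := hRec V G W μ _ _ _ _ hS' (by positivity) (by positivity) eta he0
  have hbound : C * (eta + Real.sqrt (eta ^ 2) + eta ^ 2 + 2 * eta ^ 2 / eta) ≤
      5 * C * eta := by
    rw [Real.sqrt_sq he0.le]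
    have h3 : 2 * eta ^ 2 / eta = 2 * eta := by
      field_simp
    rw [h3]
    have h4 : eta ^ 2 ≤ eta := by
      nlinarith
    nlinarith
  have hlt : 5 * C * eta < κ := by
    have : 5 * C * eta < κ' := by
      rw [← heq]
      nlinarith
    linarith
  have hex : ∃ x : Conf M V (M * h), Clean G (M * h) x := by
    by_contra hcon
    push Not at hcon
    have h1 := prb_congr (cw G W μ (fun i => q (c i)) M (M * h))
      (E := fun x => OK G (fun i => q (c i)) (M * h) x ∧ ∀ s ∈ R, Top G (q s) (M * h) x)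
      (E' := fun x => OK G (fun i => q (c i)) (M * h) x ∧ ¬ Clean G (M * h) x) (by
        intro x
        rw [hR0]
        constructor
        · rintro ⟨h1, -⟩
          exact ⟨h1, hcon x⟩
        · rintro ⟨h1, -⟩
          exact ⟨h1, by simp⟩)
    rw [h1] at hκp
    linarith
  obtain ⟨x, hx⟩ := hex
  obtain ⟨φ, hφ⟩ := h9 M h (M * h) le_rfl V G x hx
  exact ⟨φ, fun u w hu hw => hφ.inj u w (by omega) (by omega),
    fun u w hu hw => hφ.adj u w (by omega) (by omega)⟩

/-- Theorem L with one stable set. -/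
theorem stJThm : StJThm := by
  have h1 : StLKer := stLKer
  have h2 : StLMarg := stLMarg h1
  have h3 : StJOne := stJOne stJSub h1 h2 (stJOp stJSub h1 h2)
  exact stJThm_of stJSub (stJRec stJSub h1 h2 (stJTwo stJSub h1 h2) h3) (stLOK h1) stLEmb

end Pool.Agent.Lib.FGL
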