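import Pool.Agent.Lib.FGJ.LThm
import Pool.Agent.Lib.FGF.UPool
import Pool.Agent.Lib.FGF.Jen
import Pool.Agent.Lib.FGF.Ram

/-!
# Pools of unlinked stages in graphs of bounded fractional chromatic number

The stages are numbered from the early ones to the late ones.  A stable set which carries a part of
the hubs of many stages reduces the situation to Theorem L with one stable set.
-/

set_option autoImplicit false

namespace Pool.Agent.Lib.FGF

open Finset Classical
open Pool.Agent.Lib.FracGS (nb wnb om TAdj wnb_eq_sum_ite wnb_nonneg om_nonneg om_le_left om_comm)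
open Pool.Agent.Lib.GSR3 (Stab Small Tree)

/-- Every weight has a stable set which carries the part `1 / F` of it. -/
def Frac {V : Type} [Fintype V] (G : SimpleGraph V) (F : ℝ) : Prop :=
  ∀ w : V → ℝ, (∀ v, 0 ≤ w v) → ∃ J : Finset V, Stab G J ∧ ∑ v, w v ≤ F * ∑ v ∈ J, w v

/-- The stages `c ∈ A` with the hub weights `ρ c`, and the node measure `ν` on `W`. -/
structure UPl {V : Type} [Fintype V] (G : SimpleGraph V) (W : Finset V) (ν : V → ℝ)
    (ρ : ℕ → V → ℝ) (A : Finset ℕ) (ξ : ℝ) : Prop where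
  ν0 : ∀ x, 0 ≤ ν x
  ρ0 : ∀ c ∈ A, ∀ y, 0 ≤ ρ c y
  ρ1 : ∀ c ∈ A, ∑ y, ρ c y ≤ 1
  ap : ∀ c ∈ A, ∀ x ∈ W, 0 < nm G (ρ c) x
  D : ∀ c ∈ A, ∀ x ∈ W, nm G (zt G ν (ρ c) W) x ≤ ξ
  Dh : ∀ c ∈ A, ∀ s ∈ A, c < s → ∀ y, ρ s y ≠ 0 → nm G (zt G ν (ρ c) W) y ≤ ξ
  at' : ∀ c ∈ A, ∀ x ∈ W, ν x ≤ ξ * nm G (ρ c) x
  /-- nodes and later hubs have small weight as hubs (for instance weight `0`) -/
  qat : ∀ c ∈ A, ∀ x ∈ W, ∀ y, G.Adj x y → (y ∈ W ∨ ∃ s ∈ A, c < s ∧ ρ s y ≠ 0) →
    ρ c y ≤ ξ * nm G (ρ c) x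

/-- All items `(S, s)` with `|S| = m` are unlinked, for all parts `W'` of the nodes which are not
small and all hub weights `q ≤ ρ s` which keep a part of the hubs of the nodes in `W'`. -/
def Unlk {V : Type} [Fintype V] (G : SimpleGraph V) (W : Finset V) (ν : V → ℝ)
    (ρ : ℕ → V → ℝ) (A : Finset ℕ) (m : ℕ) (th c1 ε : ℝ) : Prop :=
  ∀ s ∈ A, ∀ S, S ⊆ A → (∀ c ∈ S, c < s) → S.card = m → ∀ W', W' ⊆ W →
    th * ms ν W ≤ ms ν W' → ∀ q : V → ℝ, (∀ y, 0 ≤ q y) → (∀ y, q y ≤ ρ s y) →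
      (∀ x ∈ W', c1 * nm G (ρ s) x ≤ nm G q x) → lk G ν q ρ S W' ≤ ε * ms ν W'

/-- Module `UJ`. -/
def StUJ : Prop :=
  ∀ (M h m : ℕ) (F : ℝ), 1 ≤ F → ∃ (R : ℕ) (th c1 ε : ℝ), 0 < th ∧ 0 < c1 ∧ 0 < ε ∧
    ∀ κ : ℝ, 0 < κ → ∃ ξ : ℝ, 0 < ξ ∧ ∀ (V : Type) [Fintype V] (G : SimpleGraph V)
      (W : Finset V) (ν : V → ℝ) (ρ : ℕ → V → ℝ) (A : Finset ℕ), Frac G F → R ≤ A.card →
        UPl G W ν ρ A ξ → κ ≤ ms ν W → Unlk G W ν ρ A m th c1 ε →
          ∃ φ : List (Fin M) → V, Tree G h M φ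

namespace UJAux

variable {V : Type} [Fintype V] {G : SimpleGraph V}

open UPoolAux

/-- The hub weights restricted to `J`. -/
noncomputable def qJ (ρ : V → ℝ) (J : Finset V) (y : V) : ℝ := if y ∈ J then ρ y else 0

omit [Fintype V] in
lemma qJ_nonneg {ρ : V → ℝ} (h : ∀ y, 0 ≤ ρ y) (J : Finset V) (y : V) : 0 ≤ qJ ρ J y := by
  unfold qJ
  split_ifs
  · exact h y
  · exact le_rfl

omit [Fintype V] in
lemma qJ_le {ρ : V → ℝ} (h : ∀ y, 0 ≤ ρ y) (J : Finset V) (y : V) : qJ ρ J y ≤ ρ y := by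
  unfold qJ
  split_ifs
  · exact le_rfl
  · exact h y

lemma nm_mono {r r' : V → ℝ} (h : ∀ y, r y ≤ r' y) (x : V) : nm G r x ≤ nm G r' x := by
  rw [nm_eq, nm_eq]
  refine Finset.sum_le_sum fun u _ => ?_
  split_ifs
  · exact h u
  · exact le_rfl

/-- Double counting. -/
lemma flux (ν ρ q : V → ℝ) (W : Finset V) :
    ∑ y, q y * nm G (zt G ν ρ W) y = ∑ x ∈ W, ν x * (nm G q x / nm G ρ x) := by
  have h1 : ∀ y, q y * nm G (zt G ν ρ W) y = ∑ x, if G.Adj x y then q y * zt G ν ρ W x else 0 := by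
    intro y
    rw [nm_eq, Finset.mul_sum]
    refine Finset.sum_congr rfl fun x _ => ?_
    rw [G.adj_comm]
    split_ifs <;> ring
  rw [Finset.sum_congr rfl fun y _ => h1 y, Finset.sum_comm,
    ← Finset.sum_subset (Finset.subset_univ W)]
  · refine Finset.sum_congr rfl fun x hx => ?_
    have h2 : ∀ y, (if G.Adj x y then q y * zt G ν ρ W x else 0) =
        (if G.Adj x y then q y else 0) * zt G ν ρ W x := by
      intro y
      split_ifs <;> ring
    rw [Finset.sum_congr rfl fun y _ => h2 y, ← Finset.sum_mul, ← nm_eq]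
    unfold zt
    rw [if_pos hx]
    ring
  · intro x _ hx
    refine Finset.sum_eq_zero fun y _ => ?_
    unfold zt
    rw [if_neg hx]
    simp

/-- The common stable set. -/
lemma exists_J {F : ℝ} (hF : 1 ≤ F) (hG : Frac G F) {W : Finset V} {ν : V → ℝ}
    {ρ : ℕ → V → ℝ} {A : Finset ℕ} (hν : ∀ x, 0 ≤ ν x) (hρ : ∀ c ∈ A, ∀ y, 0 ≤ ρ c y)
    (hap : ∀ c ∈ A, ∀ x ∈ W, 0 < nm G (ρ c) x) {r : ℕ} (hA : 0 < A.card)
    (hr : 4 * F * r ≤ A.card) :
    ∃ J : Finset V, Stab G J ∧ ∃ T, T ⊆ A ∧ T.card = r ∧ ∃ X, X ⊆ W ∧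
      (∀ x ∈ X, ∀ c ∈ T, nm G (ρ c) x ≤ 2 * F * nm G (qJ (ρ c) J) x) ∧
      ms ν W ≤ 4 * F * 2 ^ A.card * ms ν X := by
  have hF0 : 0 < F := by linarith
  obtain ⟨J, hJ, hJw⟩ := hG (fun y => ∑ c ∈ A, ρ c y * nm G (zt G ν (ρ c) W) y) (by
    intro y
    refine Finset.sum_nonneg fun c hc => mul_nonneg (hρ c hc y) ?_
    exact nm_nonneg (zt_nonneg hν (hρ c hc) W) y)
  set P : ℕ → V → ℝ := fun c x => nm G (qJ (ρ c) J) x / nm G (ρ c) x with hP
  have hP1 : ∀ c ∈ A, ∀ x ∈ W, P c x ≤ 1 := by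
    intro c hc x hx
    rw [hP]
    exact (div_le_one (hap c hc x hx)).2 (nm_mono (qJ_le (hρ c hc) J) x)
  set T : V → Finset ℕ := fun x => A.filter fun c => nm G (ρ c) x ≤ 2 * F * nm G (qJ (ρ c) J) x
    with hT
  have hmsW : ∀ X : Finset V, 0 ≤ ms ν X := fun X => Finset.sum_nonneg fun x _ => hν x
  -- the total weight
  have h1 : ∑ y, ∑ c ∈ A, ρ c y * nm G (zt G ν (ρ c) W) y = A.card * ms ν W := by
    rw [Finset.sum_comm]
    have h2 : ∀ c ∈ A, ∑ y, ρ c y * nm G (zt G ν (ρ c) W) y = ms ν W := by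
      intro c hc
      rw [flux]
      unfold ms
      refine Finset.sum_congr rfl fun x hx => ?_
      rw [div_self (hap c hc x hx).ne', mul_one]
    rw [Finset.sum_congr rfl h2, Finset.sum_const, nsmul_eq_mul]
  have h2 : ∑ y ∈ J, ∑ c ∈ A, ρ c y * nm G (zt G ν (ρ c) W) y =
      ∑ x ∈ W, ν x * ∑ c ∈ A, P c x := by
    rw [Finset.sum_comm]
    have h3 : ∀ c ∈ A, ∑ y ∈ J, ρ c y * nm G (zt G ν (ρ c) W) y = ∑ x ∈ W, ν x * P c x := by
      intro c hc
      rw [← flux ν (ρ c) (qJ (ρ c) J) W]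
      rw [← Finset.sum_subset (Finset.subset_univ J)]
      · refine Finset.sum_congr rfl fun y hy => ?_
        unfold qJ
        rw [if_pos hy]
      · intro y _ hy
        unfold qJ
        rw [if_neg hy, zero_mul]
    rw [Finset.sum_congr rfl h3, Finset.sum_comm]
    refine Finset.sum_congr rfl fun x _ => ?_
    rw [Finset.mul_sum]
  have h3 : ∀ x ∈ W, ∑ c ∈ A, P c x ≤ (T x).card + A.card / (2 * F) := by
    intro x hx
    rw [← Finset.sum_filter_add_sum_filter_not A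
      (fun c => nm G (ρ c) x ≤ 2 * F * nm G (qJ (ρ c) J) x)]
    refine add_le_add ?_ ?_
    · calc ∑ c ∈ A.filter (fun c => nm G (ρ c) x ≤ 2 * F * nm G (qJ (ρ c) J) x), P c x
          ≤ ∑ c ∈ A.filter (fun c => nm G (ρ c) x ≤ 2 * F * nm G (qJ (ρ c) J) x), (1 : ℝ) :=
            Finset.sum_le_sum fun c hc => hP1 c (Finset.mem_filter.1 hc).1 x hx
        _ = (T x).card := by
            rw [Finset.sum_const, nsmul_eq_mul, mul_one]
    · calc ∑ c ∈ A.filter (fun c => ¬ nm G (ρ c) x ≤ 2 * F * nm G (qJ (ρ c) J) x), P c x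
          ≤ ∑ c ∈ A.filter (fun c => ¬ nm G (ρ c) x ≤ 2 * F * nm G (qJ (ρ c) J) x),
              (1 / (2 * F)) := by
            refine Finset.sum_le_sum fun c hc => ?_
            obtain ⟨hc1, hc2⟩ := Finset.mem_filter.1 hc
            rw [hP]
            dsimp only
            rw [div_le_div_iff₀ (hap c hc1 x hx) (by positivity)]
            push Not at hc2
            linarith
        _ ≤ ∑ _c ∈ A, (1 / (2 * F)) :=
            Finset.sum_le_sum_of_subset_of_nonneg (Finset.filter_subset _ _)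
              fun _ _ _ => by positivity
        _ = A.card / (2 * F) := by
            rw [Finset.sum_const, nsmul_eq_mul]
            ring
  have hAc : (0 : ℝ) < A.card := by exact_mod_cast hA
  have h4 : (A.card : ℝ) * ms ν W ≤ 2 * F * ∑ x ∈ W, ν x * (T x).card := by
    have h5 : (A.card : ℝ) * ms ν W ≤ F * ∑ x ∈ W, ν x * ((T x).card + A.card / (2 * F)) := by
      rw [← h1]
      refine hJw.trans ?_
      rw [h2]
      refine mul_le_mul_of_nonneg_left ?_ hF0.le
      exact Finset.sum_le_sum fun x hx => mul_le_mul_of_nonneg_left (h3 x hx) (hν x)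
    have h6 : ∑ x ∈ W, ν x * ((T x).card + A.card / (2 * F)) =
        ∑ x ∈ W, ν x * (T x).card + A.card / (2 * F) * ms ν W := by
      unfold ms
      rw [Finset.mul_sum, ← Finset.sum_add_distrib]
      refine Finset.sum_congr rfl fun x _ => ?_
      ring
    rw [h6] at h5
    have h7 : F * (A.card / (2 * F) * ms ν W) = A.card * ms ν W / 2 := by
      field_simp
    nlinarith
  set X1 := W.filter (fun x => r ≤ (T x).card) with hX1
  have hTA : ∀ x, ((T x).card : ℝ) ≤ A.card := fun x => by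
    exact_mod_cast Finset.card_le_card (Finset.filter_subset _ _)
  have h5 : ∑ x ∈ W, ν x * (T x).card ≤ A.card * ms ν X1 + r * ms ν W := by
    rw [← Finset.sum_filter_add_sum_filter_not W (fun x => r ≤ (T x).card)]
    refine add_le_add ?_ ?_
    · unfold ms
      rw [Finset.mul_sum]
      refine Finset.sum_le_sum fun x _ => ?_
      rw [mul_comm]
      exact mul_le_mul_of_nonneg_right (hTA x) (hν x)
    · calc ∑ x ∈ W.filter (fun x => ¬ r ≤ (T x).card), ν x * (T x).card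
          ≤ ∑ x ∈ W.filter (fun x => ¬ r ≤ (T x).card), r * ν x := by
            refine Finset.sum_le_sum fun x hx => ?_
            have h6 := (Finset.mem_filter.1 hx).2
            rw [mul_comm]
            refine mul_le_mul_of_nonneg_right ?_ (hν x)
            exact_mod_cast (not_le.1 h6).le
        _ ≤ ∑ x ∈ W, r * ν x :=
            Finset.sum_le_sum_of_subset_of_nonneg (Finset.filter_subset _ _)
              fun x _ _ => mul_nonneg (Nat.cast_nonneg _) (hν x)
        _ = r * ms ν W := by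
            unfold ms
            rw [Finset.mul_sum]
  have h6 : ms ν W ≤ 4 * F * ms ν X1 := by
    have h7 : (A.card : ℝ) * ms ν W ≤ 2 * F * (A.card * ms ν X1 + r * ms ν W) :=
      h4.trans (mul_le_mul_of_nonneg_left h5 (by positivity))
    have h8 : 2 * F * (r * ms ν W) ≤ A.card * ms ν W / 2 := by
      have := mul_le_mul_of_nonneg_right hr (hmsW W)
      linarith
    have h9 : (A.card : ℝ) * ms ν W ≤ A.card * (4 * F * ms ν X1) := by
      nlinarith
    exact le_of_mul_le_mul_left h9 hAc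
  -- pigeonhole
  have h7 : ms ν X1 ≤ ∑ S ∈ A.powersetCard r, ms ν (W.filter fun x => S ⊆ T x) := by
    unfold ms
    have h8 : ∀ x ∈ X1, ν x ≤ ∑ S ∈ A.powersetCard r, if S ⊆ T x then ν x else 0 := by
      intro x hx
      obtain ⟨S, hS, hSc⟩ := Finset.exists_subset_card_eq (Finset.mem_filter.1 hx).2
      refine le_trans (le_of_eq ?_) (Finset.single_le_sum
        (f := fun S => if S ⊆ T x then ν x else 0) (fun S' _ => ?_)
        (Finset.mem_powersetCard.2 ⟨hS.trans (Finset.filter_subset _ _), hSc⟩))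
      · rw [if_pos hS]
      · split_ifs
        · exact hν x
        · exact le_rfl
    refine (Finset.sum_le_sum h8).trans ?_
    rw [Finset.sum_comm]
    refine Finset.sum_le_sum fun S _ => ?_
    rw [Finset.sum_filter (s := W) (fun x => S ⊆ T x)]
    refine Finset.sum_le_sum_of_subset_of_nonneg (Finset.filter_subset _ _) fun x _ _ => ?_
    split_ifs
    · exact hν x
    · exact le_rfl
  have hne : (A.powersetCard r).Nonempty := by
    rw [Finset.powersetCard_nonempty]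
    have h8 : (r : ℝ) ≤ A.card := by
      have h9 : (r : ℝ) ≤ 4 * F * r := by
        have : (0 : ℝ) ≤ r := Nat.cast_nonneg _
        nlinarith
      linarith
    exact_mod_cast h8
  obtain ⟨S, hS, hSmax⟩ := Finset.exists_max_image (A.powersetCard r)
    (fun S => ms ν (W.filter fun x => S ⊆ T x)) hne
  obtain ⟨hSA, hSc⟩ := Finset.mem_powersetCard.1 hS
  refine ⟨J, hJ, S, hSA, hSc, W.filter fun x => S ⊆ T x, Finset.filter_subset _ _, ?_, ?_⟩
  · intro x hx c hc
    exact (Finset.mem_filter.1 ((Finset.mem_filter.1 hx).2 hc)).2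
  · have h8 : ms ν X1 ≤ 2 ^ A.card * ms ν (W.filter fun x => S ⊆ T x) := by
      refine h7.trans ((Finset.sum_le_card_nsmul _ _ _ fun S' hS' => hSmax S' hS').trans ?_)
      rw [nsmul_eq_mul]
      refine mul_le_mul_of_nonneg_right ?_ (hmsW _)
      have h9 : (A.powersetCard r).card ≤ 2 ^ A.card := by
        rw [Finset.card_powersetCard]
        exact Nat.choose_le_two_pow _ _
      exact_mod_cast h9
    calc ms ν W ≤ 4 * F * ms ν X1 := h6
      _ ≤ 4 * F * (2 ^ A.card * ms ν (W.filter fun x => S ⊆ T x)) :=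
          mul_le_mul_of_nonneg_left h8 (by positivity)
      _ = 4 * F * 2 ^ A.card * ms ν (W.filter fun x => S ⊆ T x) := by ring

/-- Restricted hub weights have comparable links. -/
lemma lk_qJ_le {ρ : V → ℝ} (hρ : ∀ y, 0 ≤ ρ y) (J : Finset V) {F : ℝ} (hF : 1 ≤ F) {x x' : V}
    (hx0 : 0 < nm G ρ x) (hx0' : 0 < nm G ρ x') (hx : nm G ρ x ≤ 2 * F * nm G (qJ ρ J) x)
    (hx' : nm G ρ x' ≤ 2 * F * nm G (qJ ρ J) x') :
    FGL.lk G (qJ ρ J) x x' ≤ 2 * F * FGL.lk G ρ x x' := by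
  have hF0 : 0 < F := by linarith
  have e1 : ∀ (r : V → ℝ) (v : V), FGL.aw G r v = nm G r v := fun _ _ => rfl
  unfold FGL.lk
  rw [e1, e1, e1, e1]
  have ho : om G univ (qJ ρ J) x x' ≤ om G univ ρ x x' := by
    unfold om
    exact Finset.sum_le_sum fun y _ => qJ_le hρ J y
  have ho0 : 0 ≤ om G univ (qJ ρ J) x x' := om_nonneg (qJ_nonneg hρ J) x x'
  have hp : 0 < nm G (qJ ρ J) x := by
    by_contra h
    push Not at h
    have : 2 * F * nm G (qJ ρ J) x ≤ 0 := mul_nonpos_of_nonneg_of_nonpos (by positivity) h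
    linarith
  have hp' : 0 < nm G (qJ ρ J) x' := by
    by_contra h
    push Not at h
    have : 2 * F * nm G (qJ ρ J) x' ≤ 0 := mul_nonpos_of_nonneg_of_nonpos (by positivity) h
    linarith
  have hs : Real.sqrt (nm G ρ x * nm G ρ x') ≤
      2 * F * Real.sqrt (nm G (qJ ρ J) x * nm G (qJ ρ J) x') := by
    have h1 : 2 * F * Real.sqrt (nm G (qJ ρ J) x * nm G (qJ ρ J) x') =
        Real.sqrt ((2 * F) ^ 2 * (nm G (qJ ρ J) x * nm G (qJ ρ J) x')) := by
      rw [Real.sqrt_mul (sq_nonneg (2 * F)) (nm G (qJ ρ J) x * nm G (qJ ρ J) x'),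
        Real.sqrt_sq (by positivity)]
    rw [h1]
    apply Real.sqrt_le_sqrt
    calc nm G ρ x * nm G ρ x' ≤ (2 * F * nm G (qJ ρ J) x) * (2 * F * nm G (qJ ρ J) x') :=
          mul_le_mul hx hx' hx0'.le (by positivity)
      _ = (2 * F) ^ 2 * (nm G (qJ ρ J) x * nm G (qJ ρ J) x') := by ring
  have hs0 : 0 < Real.sqrt (nm G ρ x * nm G ρ x') := Real.sqrt_pos.2 (mul_pos hx0 hx0')
  have hs1 : 0 < Real.sqrt (nm G (qJ ρ J) x * nm G (qJ ρ J) x') :=
    Real.sqrt_pos.2 (mul_pos hp hp')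
  rw [div_le_iff₀ hs1]
  calc om G univ (qJ ρ J) x x' ≤ om G univ ρ x x' := ho
    _ = om G univ ρ x x' / Real.sqrt (nm G ρ x * nm G ρ x') *
        Real.sqrt (nm G ρ x * nm G ρ x') := by field_simp
    _ ≤ om G univ ρ x x' / Real.sqrt (nm G ρ x * nm G ρ x') *
        (2 * F * Real.sqrt (nm G (qJ ρ J) x * nm G (qJ ρ J) x')) :=
        mul_le_mul_of_nonneg_left hs (div_nonneg (ho0.trans ho) hs0.le)
    _ = 2 * F * (om G univ ρ x x' / Real.sqrt (nm G ρ x * nm G ρ x')) *
        Real.sqrt (nm G (qJ ρ J) x * nm G (qJ ρ J) x') := by ring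

/-- The system of levels. -/
lemma lsysJ {F : ℝ} (hF : 1 ≤ F) {W X J : Finset V} {ν : V → ℝ} {ρ : ℕ → V → ℝ}
    {A : Finset ℕ} {ξ xi b : ℝ} (hS : UPl G W ν ρ A ξ) (hJ : Stab G J) (hXW : X ⊆ W)
    {T : Finset ℕ} (hT : T ⊆ A)
    (hX : ∀ x ∈ X, ∀ c ∈ T, nm G (ρ c) x ≤ 2 * F * nm G (qJ (ρ c) J) x) (hb : 0 < b)
    (hbX : b ≤ ms ν X) (hξ : 0 ≤ ξ) (hxi1 : 2 * F * ξ ≤ xi) (hxi2 : 2 * F * ξ ≤ xi * b) {r : ℕ}
    {s : ℕ → ℕ} (hs : ∀ i < r, s i ∈ T) (hd : ∀ i j, i < j → j < r → s j < s i) {e1 : ℝ}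
    (hl : ∀ i j, i < j → j < r →
      2 * F * lk G ν (qJ (ρ (s i)) J) ρ {s j} X ≤ e1 * ms ν X) :
    FGL.LSysJ G X (mu ν X) r J (fun i => qJ (ρ (s i)) J) xi e1 := by
  have hF0 : 0 < F := by linarith
  have hms : 0 < ms ν X := lt_of_lt_of_le hb hbX
  have hsA : ∀ i < r, s i ∈ A := fun i hi => hT (hs i hi)
  have e0 : ∀ (q : V → ℝ) (v : V), FGL.aw G q v = nm G q v := fun _ _ => rfl
  have hqpos : ∀ i < r, ∀ x ∈ X, 0 < nm G (qJ (ρ (s i)) J) x := by
    intro i hi x hx
    have h1 := hX x hx (s i) (hs i hi)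
    have h2 := hS.ap (s i) (hsA i hi) x (hXW hx)
    by_contra h
    push Not at h
    have : 2 * F * nm G (qJ (ρ (s i)) J) x ≤ 0 :=
      mul_nonpos_of_nonneg_of_nonpos (by positivity) h
    linarith
  have hxi0 : 0 ≤ xi := le_trans (by positivity) hxi1
  -- the bound for `D`
  have hD : ∀ i < r, ∀ v, nm G (zt G ν (ρ (s i)) W) v ≤ ξ →
      FGL.Dw G X (mu ν X) (qJ (ρ (s i)) J) v ≤ xi := by
    intro i hi v hv
    rw [Dw_eq, div_le_iff₀ hms]
    have h1 : nm G (zt G ν (qJ (ρ (s i)) J) X) v ≤ 2 * F * nm G (zt G ν (ρ (s i)) W) v := by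
      rw [nm_eq, nm_eq, Finset.mul_sum]
      refine Finset.sum_le_sum fun u _ => ?_
      by_cases ha : G.Adj v u
      · rw [if_pos ha, if_pos ha]
        unfold zt
        by_cases hu : u ∈ X
        · rw [if_pos hu, if_pos (hXW hu)]
          have h2 := hqpos i hi u hu
          have h3 := hS.ap (s i) (hsA i hi) u (hXW hu)
          rw [← mul_div_assoc, div_le_div_iff₀ h2 h3]
          have h4 := mul_le_mul_of_nonneg_left (hX u hu (s i) (hs i hi)) (hS.ν0 u)
          linarith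
        · rw [if_neg hu]
          split_ifs
          · have := div_nonneg (hS.ν0 u) (hS.ap (s i) (hsA i hi) u ‹_›).le
            positivity
          · simp
      · rw [if_neg ha, if_neg ha, mul_zero]
    calc nm G (zt G ν (qJ (ρ (s i)) J) X) v ≤ 2 * F * nm G (zt G ν (ρ (s i)) W) v := h1
      _ ≤ 2 * F * ξ := mul_le_mul_of_nonneg_left hv (by positivity)
      _ ≤ xi * b := hxi2
      _ ≤ xi * ms ν X := mul_le_mul_of_nonneg_left hbX hxi0
  have hqρ : ∀ i < r, ∀ y, qJ (ρ (s i)) J y ≠ 0 → ρ (s i) y ≠ 0 := by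
    intro i hi y hy h
    apply hy
    unfold qJ
    rw [h, ite_self]
  constructor
  · intro x
    unfold mu
    split_ifs
    · exact div_nonneg (hS.ν0 x) hms.le
    · exact le_rfl
  · intro x hx
    unfold mu
    rw [if_neg hx]
  · unfold mu
    rw [Finset.sum_congr rfl fun x hx => if_pos hx, ← Finset.sum_div]
    exact div_self hms.ne'
  · intro i hi y
    exact qJ_nonneg (hS.ρ0 (s i) (hsA i hi)) J y
  · intro i hi
    exact (Finset.sum_le_sum fun y _ => qJ_le (hS.ρ0 (s i) (hsA i hi)) J y).trans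
      (hS.ρ1 (s i) (hsA i hi))
  · intro i _ y hy
    exact if_neg hy
  · exact hJ
  · intro i hi x hx
    exact hqpos i hi x hx
  · intro i hi w hw
    exact hD i hi w (hS.D (s i) (hsA i hi) w (hXW hw))
  · intro i j hij hj y hy
    exact hD j hj y (hS.Dh (s j) (hsA j hj) (s i) (hsA i (hij.trans hj)) (hd i j hij hj) y
      (hqρ i (hij.trans hj) y hy))
  · intro i hi x hx
    rw [e0]
    unfold mu
    rw [if_pos hx, div_le_iff₀ hms]
    have h1 := hS.at' (s i) (hsA i hi) x (hXW hx)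
    have h2 := hX x hx (s i) (hs i hi)
    have h3 := hqpos i hi x hx
    calc ν x ≤ ξ * nm G (ρ (s i)) x := h1
      _ ≤ ξ * (2 * F * nm G (qJ (ρ (s i)) J) x) := mul_le_mul_of_nonneg_left h2 hξ
      _ = 2 * F * ξ * nm G (qJ (ρ (s i)) J) x := by ring
      _ ≤ xi * b * nm G (qJ (ρ (s i)) J) x := mul_le_mul_of_nonneg_right hxi2 h3.le
      _ ≤ xi * ms ν X * nm G (qJ (ρ (s i)) J) x :=
          mul_le_mul_of_nonneg_right (mul_le_mul_of_nonneg_left hbX hxi0) h3.le
      _ = xi * nm G (qJ (ρ (s i)) J) x * ms ν X := by ring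
  · intro j hj x hx y hxy hy
    rw [e0]
    have h1 : ρ (s j) y ≤ ξ * nm G (ρ (s j)) x := by
      refine hS.qat (s j) (hsA j hj) x (hXW hx) y hxy ?_
      rcases hy with hy | ⟨i, hi, hy⟩
      · exact Or.inl (hXW hy)
      · exact Or.inr ⟨s i, hsA i (hi.trans hj), hd i j hi hj, hqρ i (hi.trans hj) y hy⟩
    have h2 := hX x hx (s j) (hs j hj)
    have h3 := hqpos j hj x hx
    calc qJ (ρ (s j)) J y ≤ ρ (s j) y := qJ_le (hS.ρ0 (s j) (hsA j hj)) J y
      _ ≤ ξ * nm G (ρ (s j)) x := h1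
      _ ≤ ξ * (2 * F * nm G (qJ (ρ (s j)) J) x) := mul_le_mul_of_nonneg_left h2 hξ
      _ = 2 * F * ξ * nm G (qJ (ρ (s j)) J) x := by ring
      _ ≤ xi * nm G (qJ (ρ (s j)) J) x := mul_le_mul_of_nonneg_right hxi1 h3.le
  · intro i j hij hj
    have hi := hij.trans hj
    have h1 : ∑ x ∈ X, ∑ x' ∈ X, FGL.mt G X (mu ν X) (qJ (ρ (s i)) J) x x' *
        FGL.lk G (qJ (ρ (s j)) J) x x' ≤
        2 * F * ∑ x ∈ X, ∑ x' ∈ X, FGL.mt G X (mu ν X) (qJ (ρ (s i)) J) x x' *
          FGL.lk G (ρ (s j)) x x' := by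
      rw [Finset.mul_sum]
      refine Finset.sum_le_sum fun x hx => ?_
      rw [Finset.mul_sum]
      refine Finset.sum_le_sum fun x' hx' => ?_
      have h2 : 0 ≤ FGL.mt G X (mu ν X) (qJ (ρ (s i)) J) x x' := by
        unfold FGL.mt
        have hq := qJ_nonneg (hS.ρ0 (s i) (hsA i hi)) J
        have hmu : ∀ x, 0 ≤ mu ν X x := by
          intro x
          unfold mu
          split_ifs
          · exact div_nonneg (hS.ν0 x) hms.le
          · exact le_rfl
        have haw : ∀ x, 0 ≤ FGL.aw G (qJ (ρ (s i)) J) x := fun x => nm_nonneg hq x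
        have hDw : ∀ y, 0 ≤ FGL.Dw G X (mu ν X) (qJ (ρ (s i)) J) y := fun y =>
          Finset.sum_nonneg fun v _ => div_nonneg (hmu v) (haw v)
        refine mul_nonneg (mul_nonneg (Finset.sum_nonneg fun y _ => ?_) ?_) ?_
        · exact div_nonneg (hq y) (hDw y)
        · exact div_nonneg (hmu x) (haw x)
        · exact div_nonneg (hmu x') (haw x')
      have h3 := lk_qJ_le (hS.ρ0 (s j) (hsA j hj)) J hF
        (hS.ap (s j) (hsA j hj) x (hXW hx)) (hS.ap (s j) (hsA j hj) x' (hXW hx'))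
        (hX x hx (s j) (hs j hj)) (hX x' hx' (s j) (hs j hj))
      calc FGL.mt G X (mu ν X) (qJ (ρ (s i)) J) x x' * FGL.lk G (qJ (ρ (s j)) J) x x'
          ≤ FGL.mt G X (mu ν X) (qJ (ρ (s i)) J) x x' *
            (2 * F * FGL.lk G (ρ (s j)) x x') := mul_le_mul_of_nonneg_left h3 h2
        _ = 2 * F * (FGL.mt G X (mu ν X) (qJ (ρ (s i)) J) x x' *
            FGL.lk G (ρ (s j)) x x') := by ring
    refine h1.trans ?_
    rw [lam_eq (G := G) (ν := ν) (r := qJ (ρ (s i)) J) (ρ := ρ) (W := X) (c := s j)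
      (hS.ρ0 (s j) (hsA j hj)) hms, ← mul_div_assoc, div_le_iff₀ hms]
    exact hl i j hij hj

end UJAux

open UPoolAux UJAux in
/-- Module `UJ`. -/
theorem stUJ : StUJ := by
  intro M h m F hF
  have hF0 : 0 < F := by linarith
  obtain ⟨r, e1, xi, he1, hxi, hL⟩ := FGL.stJThm M h
  set e : ℝ := min (e1 / (2 * F)) 1 with he
  have he0 : 0 < e := lt_min (by positivity) one_pos
  obtain ⟨RJ, hJe⟩ := stJen m e he0 (min_le_right _ _)
  obtain ⟨r', hR⟩ := stRam 2 2 (r + RJ + 1) (by norm_num)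
  set R : ℕ := ⌈4 * F * r'⌉₊ + 1 with hRdef
  set th : ℝ := 1 / (4 * F * 2 ^ R) with hth
  have hth0 : 0 < th := by positivity
  refine ⟨R, th, 1 / (2 * F), e ^ m / 2, hth0, by positivity, by positivity, ?_⟩
  intro κ hκ
  set b : ℝ := th * κ with hb
  have hb0 : 0 < b := mul_pos hth0 hκ
  refine ⟨min (xi / (2 * F)) (xi * b / (2 * F)), lt_min (by positivity) (by positivity), ?_⟩
  intro V _ G W ν ρ A0 hG hA0 hS0 hκW hU0
  set ξ : ℝ := min (xi / (2 * F)) (xi * b / (2 * F)) with hξdef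
  have hξ0 : 0 ≤ ξ := le_min (by positivity) (by positivity)
  have hξ1 : 2 * F * ξ ≤ xi := by
    have := min_le_left (xi / (2 * F)) (xi * b / (2 * F))
    rw [← hξdef, le_div_iff₀ (by positivity)] at this
    linarith
  have hξ2 : 2 * F * ξ ≤ xi * b := by
    have := min_le_right (xi / (2 * F)) (xi * b / (2 * F))
    rw [← hξdef, le_div_iff₀ (by positivity)] at this
    linarith
  -- exactly `R` stages
  obtain ⟨A, hAA, hAc⟩ := Finset.exists_subset_card_eq hA0
  have hS : UPl G W ν ρ A ξ :=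
    ⟨hS0.ν0, fun c hc => hS0.ρ0 c (hAA hc), fun c hc => hS0.ρ1 c (hAA hc),
      fun c hc => hS0.ap c (hAA hc), fun c hc => hS0.D c (hAA hc),
      fun c hc s hs => hS0.Dh c (hAA hc) s (hAA hs), fun c hc => hS0.at' c (hAA hc),
      fun c hc x hx y hxy hy => hS0.qat c (hAA hc) x hx y hxy (by
        rcases hy with hy | ⟨s, hs, h1, h2⟩
        · exact Or.inl hy
        · exact Or.inr ⟨s, hAA hs, h1, h2⟩)⟩
  have hR4 : 4 * F * r' ≤ A.card := by
    rw [hAc, hRdef]
    push_cast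
    have := Nat.le_ceil (4 * F * (r' : ℝ))
    linarith
  obtain ⟨J, hJ, T, hTA, hTc, X, hXW, hX, hXms⟩ := exists_J hF hG hS.ν0 hS.ρ0 hS.ap (by omega) hR4
  have hthX : th * ms ν W ≤ ms ν X := by
    rw [hth, one_div, inv_mul_le_iff₀ (by positivity), ← hAc]
    exact hXms
  have hbX : b ≤ ms ν X := (mul_le_mul_of_nonneg_left hκW hth0.le).trans hthX
  have hms : 0 < ms ν X := lt_of_lt_of_le hb0 hbX
  set lin : ℕ → ℕ → Prop := fun c s => e * ms ν X ≤ lk G ν (qJ (ρ s) J) ρ {c} X with hlin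
  obtain ⟨B, hBT, hBc, i0, hi0⟩ := hR
    (fun S => if ∃ c s, c < s ∧ S = {c, s} ∧ lin c s then 1 else 0) T
    (fun S => by split_ifs <;> norm_num) (by omega)
  by_cases hi : i0 = 1
  · -- all pairs are linked
    subst hi
    have hlk : ∀ c ∈ B, ∀ s ∈ B, c < s → lin c s := by
      intro c hc s hs hcs
      have h1 := hi0 {c, s} (by
        intro z hz
        rw [Finset.mem_insert, Finset.mem_singleton] at hz
        rcases hz with rfl | rfl
        · exact hc
        · exact hs) (Finset.card_pair hcs.ne)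
      have h2 : ∃ c' s', c' < s' ∧ ({c, s} : Finset ℕ) = {c', s'} ∧ lin c' s' := by
        by_contra h3
        have h4 : (if ∃ c' s', c' < s' ∧ ({c, s} : Finset ℕ) = {c', s'} ∧ lin c' s' then 1
          else 0) = 1 := h1
        rw [if_neg h3] at h4
        exact absurd h4 (by norm_num)
      obtain ⟨c', s', hcs', he, hl⟩ := h2
      have e1' : c ∈ ({c', s'} : Finset ℕ) := by rw [← he]; simp
      have e2' : s ∈ ({c', s'} : Finset ℕ) := by rw [← he]; simp
      rw [Finset.mem_insert, Finset.mem_singleton] at e1' e2'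
      rcases e1' with rfl | rfl <;> rcases e2' with rfl | rfl
      · omega
      · exact hl
      · omega
      · omega
    have hBne : B.Nonempty := by
      rw [← Finset.card_pos, hBc]
      omega
    set s := B.max' hBne with hs
    have hsB : s ∈ B := B.max'_mem hBne
    have hsT : s ∈ T := hBT hsB
    have hsA : s ∈ A := hTA hsT
    have hq0 := qJ_nonneg (hS.ρ0 s hsA) J
    have hpX : ∀ x ∈ X, 0 < nm G (qJ (ρ s) J) x := by
      intro x hx
      have h1 := hX x hx s hsT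
      have h2 := hS.ap s hsA x (hXW hx)
      by_contra h
      push Not at h
      have : 2 * F * nm G (qJ (ρ s) J) x ≤ 0 :=
        mul_nonpos_of_nonneg_of_nonpos (by positivity) h
      linarith
    have hsum := sum_pw_one (G := G) (ν := ν) hpX
    obtain ⟨S, hSB, hSc, hSp⟩ := hJe (V × V × V) (pw G ν (qJ (ρ s) J) X)
      (fun c t => ell G (ρ c) t.2.1 t.2.2) (B.erase s)
      (fun t => pw_nonneg hS.ν0 hq0 _ t)
      (fun c hc t => by
        have hcA : c ∈ A := hTA (hBT (Finset.mem_of_mem_erase hc))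
        exact ⟨ell_nonneg (hS.ρ0 c hcA) _ _, ell_le_one (hS.ρ0 c hcA) _ _⟩)
      (by rw [hsum]; exact hms)
      (by rw [Finset.card_erase_of_mem hsB, hBc]; omega)
      (fun c hc => by
        rw [hsum]
        have hcB := Finset.mem_of_mem_erase hc
        have hcs : c < s := lt_of_le_of_ne (B.le_max' c hcB) (Finset.ne_of_mem_erase hc)
        have h1 : e * ms ν X ≤ lk G ν (qJ (ρ s) J) ρ {c} X := hlk c hcB s hsB hcs
        rw [lk_eq] at h1
        simpa only [Finset.prod_singleton] using h1)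
    have hSA : S ⊆ A := fun c hc => hTA (hBT (Finset.mem_of_mem_erase (hSB hc)))
    have h1 := hU0 s (hAA hsA) S (hSA.trans hAA) (fun c hc =>
      lt_of_le_of_ne (B.le_max' c (Finset.mem_of_mem_erase (hSB hc)))
        (Finset.ne_of_mem_erase (hSB hc))) hSc X hXW hthX (qJ (ρ s) J) hq0
      (qJ_le (hS.ρ0 s hsA) J) (fun x hx => by
        rw [one_div, inv_mul_le_iff₀ (by positivity)]
        exact hX x hx s hsT)
    rw [lk_eq] at h1
    rw [hsum] at hSp
    linarith
  · -- no pair is linked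
    have hlk : ∀ c ∈ B, ∀ s ∈ B, c < s → ¬ lin c s := by
      intro c hc s hs hcs hl
      have h1 := hi0 {c, s} (by
        intro z hz
        rw [Finset.mem_insert, Finset.mem_singleton] at hz
        rcases hz with rfl | rfl
        · exact hc
        · exact hs) (Finset.card_pair hcs.ne)
      have h4 : (if ∃ c' s', c' < s' ∧ ({c, s} : Finset ℕ) = {c', s'} ∧ lin c' s' then 1
          else 0) = i0 := h1
      rw [if_pos ⟨c, s, hcs, rfl, hl⟩] at h4
      exact hi h4.symm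
    -- the levels
    set s : ℕ → ℕ := fun i => if hi : i < r + RJ + 1 then
      B.orderEmbOfFin hBc ⟨r + RJ - i, by omega⟩ else 0 with hsdef
    have hsB : ∀ i < r, s i ∈ B := by
      intro i hi
      rw [hsdef]
      dsimp only
      rw [dif_pos (by omega)]
      exact B.orderEmbOfFin_mem hBc _
    have hdec : ∀ i j, i < j → j < r → s j < s i := by
      intro i j hij hj
      rw [hsdef]
      dsimp only
      rw [dif_pos (by omega), dif_pos (by omega)]
      apply (B.orderEmbOfFin hBc).strictMono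
      rw [Fin.mk_lt_mk]
      omega
    have hsys := lsysJ (e1 := e1) hF hS hJ hXW hTA hX hb0 hbX hξ0 hξ1 hξ2
      (fun i hi => hBT (hsB i hi)) hdec
      (fun i j hij hj => by
        have h1 : ¬ (e * ms ν X ≤ lk G ν (qJ (ρ (s i)) J) ρ {s j} X) :=
          hlk (s j) (hsB j hj) (s i) (hsB i (by omega)) (hdec i j hij hj)
        rw [not_le] at h1
        have h2 : e ≤ e1 / (2 * F) := min_le_left _ _
        calc 2 * F * lk G ν (qJ (ρ (s i)) J) ρ {s j} X ≤ 2 * F * (e * ms ν X) :=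
              mul_le_mul_of_nonneg_left h1.le (by positivity)
          _ ≤ 2 * F * (e1 / (2 * F) * ms ν X) := by gcongr
          _ = e1 * ms ν X := by field_simp)
    exact hL V G X (mu ν X) J _ hsys

end Pool.Agent.Lib.FGF
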